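import Pool.Agent.Helper702.SF.Embed
import Pool.Agent.Helper702.SF.P_finPresNU_of

/-!
# MP_4d37d6_al, Q1 (associative algebras)

Every finitely generated associative algebra over a prime field with a recursive basis embeds in a
simple finitely presented associative algebra over the same field.

Both readings of the question are treated: algebras with unit (homomorphisms preserve the
unit), and algebras which need not have a unit.  The simple algebra `S` has a unit and is finitely
presented in both classes.  The theorem is proved for every field `F` such that the structure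
constants lie in the prime subfield; for `F = ZMod p` and `F = ℚ` this is no restriction.
-/

set_option autoImplicit false

namespace Pool.Agent.Results.MP_4d37d6_al.SimpleFPEmbedding

universe u

/-- A recursive basis of an algebra with unit, with respect to the generators `a i`: the words
`w ∈ Bs` in the generators give a linear basis of the algebra, the set `Bs` is recursive, and an
algorithm `nf` writes every word as a linear combination of words of `Bs`.  The output
`(d, [(z₁, b₁), (z₂, b₂), ...])` of the algorithm stands for the linear combination
`(z₁/d) b₁ + (z₂/d) b₂ + ...`, where `zᵢ` are integers and `d` is a natural number with `d ≠ 0` in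
`F`.  For `F = ℚ` and `F = ZMod p` these are all linear combinations. -/
def RecursiveBasis (F : Type) {A : Type u} [Field F] [Ring A] [Algebra F A] {n : ℕ}
    (a : Fin n → A) : Prop :=
  ∃ (Bs : Set (List (Fin n))) (nf : List (Fin n) → ℕ × List (ℤ × List (Fin n))),
    ComputablePred (fun w => w ∈ Bs) ∧ Computable nf ∧
    LinearIndependent F (fun w : Bs => (w.1.map a).prod) ∧
    ∀ w, ((nf w).1 : F) ≠ 0 ∧ (∀ p ∈ (nf w).2, p.2 ∈ Bs) ∧
      ((nf w).1 : F) • (w.map a).prod =
        ((nf w).2.map (fun p => (p.1 : F) • (p.2.map a).prod)).sum

/-- The product of a nonempty list in an algebra which need not have a unit. -/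
def wordProd {A : Type u} [NonUnitalRing A] : List A → A
  | [] => 0
  | [x] => x
  | x :: y :: l => x * wordProd (y :: l)

/-- A recursive basis of an algebra which need not have a unit, with respect to the generators
`a i`.  All words are nonempty; the rest is as in `RecursiveBasis`. -/
def RecursiveBasisNU (F : Type) {A : Type u} [Field F] [NonUnitalRing A] [Module F A] {n : ℕ}
    (a : Fin n → A) : Prop :=
  ∃ (Bs : Set (List (Fin n))) (nf : List (Fin n) → ℕ × List (ℤ × List (Fin n))),
    [] ∉ Bs ∧ ComputablePred (fun w => w ∈ Bs) ∧ Computable nf ∧
    LinearIndependent F (fun w : Bs => wordProd (w.1.map a)) ∧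
    ∀ w, w ≠ [] → ((nf w).1 : F) ≠ 0 ∧ (∀ p ∈ (nf w).2, p.2 ∈ Bs) ∧
      ((nf w).1 : F) • wordProd (w.map a) =
        ((nf w).2.map (fun p => (p.1 : F) • wordProd (p.2.map a))).sum

/-- `S` is a finitely presented algebra with unit: it is isomorphic to the quotient of a free
algebra with unit on finitely many generators by the two-sided ideal generated by a finite set. -/
def FinitelyPresented (F S : Type) [Field F] [Ring S] [Algebra F S] : Prop :=
  ∃ (n : ℕ) (R : Finset (FreeAlgebra F (Fin n))),
    Nonempty (S ≃ₐ[F] RingQuot (fun p q : FreeAlgebra F (Fin n) => p ∈ R ∧ q = 0))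

/-- `S` is finitely presented in the class of algebras which need not have a unit.  The free
algebra without unit is realised as the set of the elements without constant term in the free
algebra with unit, i.e. the subalgebra without unit generated by the generators `ι i`.  The elements
`c i` generate `S` (without the help of the unit), and the elements without constant term which
vanish at `c` form the ideal generated by a finite set `R` of elements without constant term. -/
def FinitelyPresentedNU (F S : Type) [Field F] [Ring S] [Algebra F S] : Prop :=
  ∃ (n : ℕ) (c : Fin n → S) (R : Finset (FreeAlgebra F (Fin n))),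
    NonUnitalAlgebra.adjoin F (Set.range c) = ⊤ ∧
    (∀ r ∈ R, r ∈ NonUnitalAlgebra.adjoin F (Set.range (FreeAlgebra.ι F (X := Fin n)))) ∧
    ∀ p ∈ NonUnitalAlgebra.adjoin F (Set.range (FreeAlgebra.ι F (X := Fin n))),
      FreeAlgebra.lift F c p = 0 ↔ p ∈ TwoSidedIdeal.span (R : Set (FreeAlgebra F (Fin n)))

section proofs
variable {F : Type} [Field F]

/-- The embedding theorem for algebras with unit in any universe. -/
theorem embed_unital {A : Type u} [Ring A] [Algebra F A] [Nontrivial A] {n : ℕ} (a : Fin n → A)
    (hgen : Algebra.adjoin F (Set.range a) = ⊤) (h : RecursiveBasis F a) :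
    ∃ (S : Type) (_ : Ring S) (_ : Algebra F S), FinitelyPresented F S ∧ FinitelyPresentedNU F S ∧
      IsSimpleRing S ∧ ∃ φ : A →ₐ[F] S, Function.Injective φ := by
  have hsurj : Function.Surjective (FreeAlgebra.lift F a) := by
    rw [← AlgHom.range_eq_top, eq_top_iff, ← hgen, Algebra.adjoin_le_iff]
    rintro _ ⟨i, rfl⟩
    exact ⟨FreeAlgebra.ι F i, by simp⟩
  have : Small.{0} A := small_of_surjective hsurj
  let e : A ≃ₐ[F] Shrink.{0} A := (Shrink.algEquiv F A).symm
  have : Nontrivial (Shrink.{0} A) := e.symm.toEquiv.nontrivial
  have hgen' : Algebra.adjoin F (Set.range (fun i => e (a i))) = ⊤ := by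
    have h1 : Set.range (fun i => e (a i)) = e.toAlgHom '' Set.range a := by
      rw [← Set.range_comp]; rfl
    rw [h1, Algebra.adjoin_image, hgen, Algebra.map_top, AlgHom.range_eq_top]
    exact e.surjective
  obtain ⟨S, iS, iA, hfp, hs, φ, hφ⟩ :=
    Pool.SF.embed (F := F) (fun i => e (a i)) hgen' (Pool.SF.hasRecBasis_of_equiv e a h)
  exact ⟨S, iS, iA, hfp, Pool.SF.finPresNU_of hfp, hs, φ.comp e.toAlgHom, hφ.comp e.injective⟩

theorem recBasisU_inr_mem {A : Type u} [NonUnitalRing A] [Module F A] [IsScalarTower F A A]
    [SMulCommClass F A A] {n : ℕ} (a : Fin n → A)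
    (hgen : NonUnitalAlgebra.adjoin F (Set.range a) = ⊤) (x : A) :
    (Unitization.inr x : Unitization F A) ∈
      Algebra.adjoin F (Set.range (fun i => (Unitization.inr (a i) : Unitization F A))) := by
  have hx : x ∈ NonUnitalAlgebra.adjoin F (Set.range a) := by
    rw [hgen]
    exact NonUnitalAlgebra.mem_top
  refine NonUnitalAlgebra.adjoin_induction (p := fun x _ => (Unitization.inr x : Unitization F A) ∈
      Algebra.adjoin F (Set.range (fun i => (Unitization.inr (a i) : Unitization F A))))
      ?_ ?_ ?_ ?_ ?_ hx
  · rintro _ ⟨i, rfl⟩
    exact Algebra.subset_adjoin ⟨i, rfl⟩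
  · intro x y _ _ hx hy
    rw [Unitization.inr_add]
    exact add_mem hx hy
  · rw [Unitization.inr_zero]
    exact zero_mem _
  · intro x y _ _ hx hy
    rw [Unitization.inr_mul]
    exact mul_mem hx hy
  · intro r x _ hx
    rw [Unitization.inr_smul]
    exact Subalgebra.smul_mem _ hx r

theorem recBasisU_prod {A : Type u} [NonUnitalRing A] [Module F A] [IsScalarTower F A A]
    [SMulCommClass F A A] {n : ℕ} (a : Fin n → A) : ∀ w : List (Fin n), w ≠ [] →
    (w.map (fun i => (Unitization.inr (a i) : Unitization F A))).prod =
      Unitization.inr (wordProd (w.map a))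
  | [], h => absurd rfl h
  | [x], _ => by
    rw [List.map_cons, List.map_nil, List.prod_cons, List.prod_nil, mul_one]
    rfl
  | x :: y :: l, _ => by
    have ih := recBasisU_prod a (y :: l) (List.cons_ne_nil _ _)
    rw [List.map_cons, List.prod_cons, ih, ← Unitization.inr_mul]
    rfl

/-- The algebra obtained by adjoining a unit has a recursive basis. -/
theorem recBasis_unitization {A : Type u} [NonUnitalRing A] [Module F A] [IsScalarTower F A A]
    [SMulCommClass F A A] {n : ℕ} (a : Fin n → A)
    (hgen : NonUnitalAlgebra.adjoin F (Set.range a) = ⊤) (h : RecursiveBasisNU F a) :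
    Algebra.adjoin F (Set.range (fun i => (Unitization.inr (a i) : Unitization F A))) = ⊤ ∧
      RecursiveBasis F (fun i => (Unitization.inr (a i) : Unitization F A)) := by
  constructor
  · rw [eq_top_iff]
    intro z _
    rw [← Unitization.inl_fst_add_inr_snd_eq z]
    refine add_mem ?_ (recBasisU_inr_mem a hgen _)
    rw [← Unitization.algebraMap_eq_inl]
    exact Subalgebra.algebraMap_mem _ _
  · obtain ⟨Bs, nf, h0, hc, hnf, hli, h⟩ := h
    obtain ⟨f, hf, hfB⟩ := ComputablePred.computable_iff.1 hc
    have hnil : Computable (fun w : List (Fin n) => decide (w = [])) :=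
      (PrimrecPred.decide (Primrec.eq.comp Primrec.id (Primrec.const []))).to_comp
    refine ⟨insert [] Bs, fun w => cond (decide (w = [])) (1, [(1, [])]) (nf w), ?_, ?_, ?_, ?_⟩
    · rw [ComputablePred.computable_iff]
      refine ⟨fun w => cond (decide (w = [])) true (f w),
        Computable.cond hnil (Computable.const true) hf, ?_⟩
      funext w
      have h1 : (w ∈ Bs) = ((f w : Bool) : Prop) := congrFun hfB w
      by_cases hw : w = []
      · rw [hw]
        simp
      · have h2 : (w ∈ (insert [] Bs : Set (List (Fin n)))) = (w ∈ Bs) := by
          rw [Set.mem_insert_iff]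
          exact propext ⟨fun h3 => h3.resolve_left hw, Or.inr⟩
        rw [h2, h1]
        beta_reduce
        rw [decide_eq_false hw, cond_false]
    · exact Computable.cond hnil (Computable.const (1, [(1, [])])) hnf
    · have h1 : LinearIndepOn F
          (fun w : List (Fin n) => (w.map (fun i => (Unitization.inr (a i) : Unitization F A))).prod)
          Bs := by
        have h2 := hli.map' (Unitization.inrHom F F A)
          (LinearMap.ker_eq_bot.2 Unitization.inrHom_injective)
        have h3 : (Unitization.inrHom F F A) ∘ (fun w : Bs => wordProd (w.1.map a)) =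
            fun w : Bs => (w.1.map (fun i => (Unitization.inr (a i) : Unitization F A))).prod := by
          funext w
          have hw : w.1 ≠ [] := fun h4 => h0 (h4 ▸ w.2)
          rw [recBasisU_prod a w.1 hw]
          rfl
        rw [h3] at h2
        exact h2
      have h4 : LinearIndepOn F
          (fun w : List (Fin n) => (w.map (fun i => (Unitization.inr (a i) : Unitization F A))).prod)
          (insert [] Bs) := by
        refine LinearIndepOn.insert h1 ?_
        intro hmem
        have h5 : ∀ z ∈ Submodule.span F ((fun w : List (Fin n) =>
            (w.map (fun i => (Unitization.inr (a i) : Unitization F A))).prod) '' Bs),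
            z.fst = 0 := by
          intro z hz
          refine Submodule.span_induction (p := fun z _ => z.fst = 0) ?_ ?_ ?_ ?_ hz
          · rintro _ ⟨w, hw, rfl⟩
            have hw0 : w ≠ [] := fun h4 => h0 (h4 ▸ hw)
            show (List.map (fun i => (Unitization.inr (a i) : Unitization F A)) w).prod.fst = 0
            rw [recBasisU_prod a w hw0]
            rfl
          · rfl
          · intro x y _ _ hx hy
            rw [Unitization.fst_add, hx, hy, add_zero]
          · intro c x _ hx
            rw [Unitization.fst_smul, hx, smul_zero]
        have h6 := h5 _ hmem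
        rw [List.map_nil, List.prod_nil, Unitization.fst_one] at h6
        exact one_ne_zero h6
      exact h4
    · intro w
      beta_reduce
      by_cases hw : w = []
      · rw [hw, decide_eq_true rfl, cond_true]
        refine ⟨?_, ?_, ?_⟩
        · rw [Nat.cast_one]
          exact one_ne_zero
        · intro p hp
          rw [List.mem_singleton] at hp
          rw [hp]
          exact Set.mem_insert _ _
        · simp
      · rw [decide_eq_false hw, cond_false]
        obtain ⟨h1, h2, h3⟩ := h w hw
        refine ⟨h1, fun p hp => Set.mem_insert_of_mem _ (h2 p hp), ?_⟩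
        rw [recBasisU_prod a w hw, ← Unitization.inr_smul, h3]
        have h4 : (Unitization.inr (List.map (fun p : ℤ × List (Fin n) =>
            (p.1 : F) • wordProd (p.2.map a)) (nf w).2).sum : Unitization F A) =
            Unitization.inrHom F F A (List.map (fun p : ℤ × List (Fin n) =>
            (p.1 : F) • wordProd (p.2.map a)) (nf w).2).sum := rfl
        rw [h4, map_list_sum, List.map_map]
        congr 1
        refine List.map_congr_left (fun p hp => ?_)
        have hp0 : p.2 ≠ [] := fun h5 => h0 (h5 ▸ h2 p hp)
        show Unitization.inrHom F F A ((p.1 : F) • wordProd (p.2.map a)) = _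
        rw [map_smul, recBasisU_prod a p.2 hp0]
        rfl

end proofs

/-- **Main theorem.** Let `F` be a field.
(1) Let `A ≠ 0` be an associative `F`-algebra with unit, generated by `a 0, ..., a (n-1)`, which
has a recursive basis. Then `A` embeds, by a homomorphism preserving the unit, in a simple
`F`-algebra `S` with unit which is finitely presented (with or without unit).
(2) Let `A` be an associative `F`-algebra, which need not have a unit, generated by
`a 0, ..., a (n-1)`, which has a recursive basis. Then `A` embeds in a simple `F`-algebra `S` with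
unit which is finitely presented (with or without unit). -/
theorem result (F : Type) [Field F] :
    (∀ (A : Type u) [Ring A] [Algebra F A] [Nontrivial A] (n : ℕ) (a : Fin n → A),
      Algebra.adjoin F (Set.range a) = ⊤ → RecursiveBasis F a →
      ∃ (S : Type) (_ : Ring S) (_ : Algebra F S),
        FinitelyPresented F S ∧ FinitelyPresentedNU F S ∧ IsSimpleRing S ∧
          ∃ φ : A →ₐ[F] S, Function.Injective φ) ∧
    (∀ (A : Type u) [NonUnitalRing A] [Module F A] [IsScalarTower F A A] [SMulCommClass F A A]
      (n : ℕ) (a : Fin n → A),
      NonUnitalAlgebra.adjoin F (Set.range a) = ⊤ → RecursiveBasisNU F a →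
      ∃ (S : Type) (_ : Ring S) (_ : Algebra F S),
        FinitelyPresented F S ∧ FinitelyPresentedNU F S ∧ IsSimpleRing S ∧
          ∃ φ : A →ₙₐ[F] S, Function.Injective φ) := by
  constructor
  · intro A _ _ _ n a hgen h
    exact embed_unital a hgen h
  · intro A _ _ _ _ n a hgen h
    obtain ⟨h1, h2⟩ := recBasis_unitization a hgen h
    obtain ⟨S, iS, iA, hfp, hfpn, hs, φ, hφ⟩ := embed_unital _ h1 h2
    refine ⟨S, iS, iA, hfp, hfpn, hs,
      (φ : Unitization F A →ₙₐ[F] S).comp (Unitization.inrNonUnitalAlgHom F A), ?_⟩
    exact hφ.comp Unitization.inr_injective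

end Pool.Agent.Results.MP_4d37d6_al.SimpleFPEmbedding
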